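import Pool.Agent.R972.OP.Stm2

/-!
# OP-UPB: asymptotics of the sums with constant rate
-/

set_option autoImplicit false

namespace Pool.Agent.R874.OP

open MeasureTheory Set Filter Topology Pool.Agent.R972.OP

theorem cb_eq {N : ℕ} (hN : 0 < N) :
    cb N / (N : ℝ) ^ 2 = 1 / (Real.pi ^ 2 * Real.sinc (Real.pi / (2 * N)) ^ 2) := by
  have hN' : (0 : ℝ) < N := by exact_mod_cast hN
  have hx : Real.pi / (2 * N) ≠ 0 := by
    have := Real.pi_pos
    positivity
  rw [Real.sinc_of_ne_zero hx]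
  unfold cb
  have hp := Real.pi_ne_zero
  by_cases hs : Real.sin (Real.pi / (2 * N)) = 0
  · rw [hs]
    simp
  · field_simp
    norm_num

theorem cb_lim : Tendsto (fun N : ℕ => cb N / (N : ℝ) ^ 2) atTop (𝓝 (1 / Real.pi ^ 2)) := by
  have h1 : Tendsto (fun N : ℕ => Real.pi / (2 * (N : ℝ))) atTop (𝓝 0) := by
    apply Tendsto.const_div_atTop
    exact tendsto_natCast_atTop_atTop.const_mul_atTop (by norm_num)
  have h2 : Tendsto (fun N : ℕ => Real.sinc (Real.pi / (2 * (N : ℝ)))) atTop (𝓝 1) := by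
    have := (Real.continuous_sinc.tendsto 0).comp h1
    rw [Real.sinc_zero] at this
    exact this
  have h3 : Tendsto (fun N : ℕ => 1 / (Real.pi ^ 2 * Real.sinc (Real.pi / (2 * (N : ℝ))) ^ 2)) atTop
      (𝓝 (1 / (Real.pi ^ 2 * 1 ^ 2))) := by
    apply Tendsto.div tendsto_const_nhds ((h2.pow 2).const_mul _)
    have := Real.pi_ne_zero
    positivity
  rw [one_pow, mul_one] at h3
  refine h3.congr' ?_
  filter_upwards [eventually_gt_atTop 0] with N hN
  exact (cb_eq hN).symm

theorem cb_nonneg (N : ℕ) : 0 ≤ cb N := by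
  unfold cb
  positivity

theorem cb_le {N : ℕ} (hN : 0 < N) : cb N / (N : ℝ) ^ 2 ≤ 1 / 4 := by
  have hN' : (1 : ℝ) ≤ N := by exact_mod_cast hN
  have hN0 : (0 : ℝ) < N := by linarith
  have hp := Real.pi_pos
  have h1 : 1 / (N : ℝ) ≤ Real.sin (Real.pi / (2 * N)) := by
    have h2 := Real.mul_le_sin (x := Real.pi / (2 * N)) (by positivity) (by
      apply div_le_div_of_nonneg_left hp.le (by norm_num)
      linarith)
    have h3 : 2 / Real.pi * (Real.pi / (2 * N)) = 1 / (N : ℝ) := by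
      field_simp
    rw [h3] at h2
    exact h2
  have h4 : (1 / (N : ℝ)) ^ 2 ≤ Real.sin (Real.pi / (2 * N)) ^ 2 :=
    pow_le_pow_left₀ (by positivity) h1 2
  have h5 : 0 < Real.sin (Real.pi / (2 * N)) ^ 2 := lt_of_lt_of_le (by positivity) h4
  unfold cb
  rw [div_le_div_iff₀ (by positivity) (by norm_num), div_mul_eq_mul_div, one_mul, div_le_iff₀ (by positivity)]
  have h6 : 1 ≤ Real.sin (Real.pi / (2 * N)) ^ 2 * (N : ℝ) ^ 2 := by
    rw [one_div, inv_pow, inv_eq_one_div, div_le_iff₀ (by positivity)] at h4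
    exact h4
  nlinarith

variable {n : ℕ} {f : (Fin n → ℝ) → ℝ}

theorem pd_cont (hf : ContDiff ℝ 1 f) (a : Fin n) : Continuous (pd f a) :=
  (hf.continuous_fderiv one_ne_zero).clm_apply continuous_const

/-- mean value -/
theorem mvt (hf : ContDiff ℝ 1 f) (a : Fin n) {x : Fin n → ℝ} (t : ℝ)
    (hx : x ∈ Icc (0 : Fin n → ℝ) 1) (hx' : x + t • Pi.single a (1 : ℝ) ∈ Icc (0 : Fin n → ℝ) 1) :
    ∃ ξ ∈ Icc (0 : Fin n → ℝ) 1, dist ξ x ≤ |t| ∧
      f (x + t • Pi.single a (1 : ℝ)) - f x = t * pd f a ξ := by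
  set v : Fin n → ℝ := t • Pi.single a (1 : ℝ) with hv
  have hd : ∀ s : ℝ, HasDerivAt (fun s : ℝ => f (x + s • v)) (t * pd f a (x + s • v)) s := by
    intro s
    have h1 : HasDerivAt (fun s : ℝ => x + s • v) v s := by
      have := ((hasDerivAt_id s).smul_const v).const_add x
      simpa using this
    have h2 := (hf.differentiable one_ne_zero (x + s • v)).hasFDerivAt.comp_hasDerivAt s h1
    refine h2.congr_deriv ?_
    unfold pd
    rw [hv, map_smul, smul_eq_mul]
  obtain ⟨s, hs, he⟩ := exists_hasDerivAt_eq_slope (fun s : ℝ => f (x + s • v))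
    (fun s => t * pd f a (x + s • v)) (zero_lt_one (α := ℝ))
    (fun s _ => (hd s).continuousAt.continuousWithinAt) (fun s _ => hd s)
  simp only [one_smul, zero_smul, add_zero, sub_zero, div_one] at he
  refine ⟨x + s • v, ?_, ?_, he.symm⟩
  · have h3 := (convex_Icc (0 : Fin n → ℝ) 1).add_smul_mem hx hx' ⟨hs.1.le, hs.2.le⟩
    exact h3
  · rw [dist_eq_norm, add_sub_cancel_left, norm_smul, hv, norm_smul, Real.norm_eq_abs,
      Real.norm_eq_abs, abs_of_pos hs.1]
    have h4 : ‖(Pi.single a (1 : ℝ) : Fin n → ℝ)‖ ≤ 1 := by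
      rw [pi_norm_le_iff_of_nonneg zero_le_one]
      intro b
      by_cases hb : b = a
      · subst hb; simp
      · simp [Pi.single_eq_of_ne hb]
    have h5 : |t| * ‖(Pi.single a (1 : ℝ) : Fin n → ℝ)‖ ≤ |t| :=
      mul_le_of_le_one_right (abs_nonneg _) h4
    calc s * (|t| * ‖(Pi.single a (1 : ℝ) : Fin n → ℝ)‖) ≤ 1 * |t| :=
          mul_le_mul hs.2.le h5 (by positivity) zero_le_one
      _ = |t| := one_mul _

theorem lp_mem {N : ℕ} {g : Fin n → ℕ} (hN : 0 < N) (hg : ∀ a, g a ≤ N) :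
    lp N g ∈ Icc (0 : Fin n → ℝ) 1 := by
  have hN' : (0 : ℝ) < N := by exact_mod_cast hN
  constructor
  · intro a
    change (0 : ℝ) ≤ (g a : ℝ) / N
    positivity
  · intro a
    change (g a : ℝ) / N ≤ 1
    rw [div_le_one hN']
    exact_mod_cast hg a

theorem lp_up {N : ℕ} (g : Fin n → ℕ) (a : Fin n) :
    lp N (Function.update g a (g a + 1)) = lp N g + (1 / (N : ℝ)) • Pi.single a (1 : ℝ) := by
  funext b
  rw [Pi.add_apply, Pi.smul_apply, smul_eq_mul]
  unfold Pool.Agent.R972.OP.lp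
  by_cases hb : b = a
  · subst hb
    rw [Function.update_self, Pi.single_eq_same]
    push_cast
    ring
  · rw [Function.update_of_ne hb, Pi.single_eq_of_ne hb]
    ring

theorem lp_down {N : ℕ} (g : Fin n → ℕ) (a : Fin n) (h : 0 < g a) :
    lp N (Function.update g a (g a - 1)) = lp N g + (-(1 / (N : ℝ))) • Pi.single a (1 : ℝ) := by
  funext b
  rw [Pi.add_apply, Pi.smul_apply, smul_eq_mul]
  unfold Pool.Agent.R972.OP.lp
  by_cases hb : b = a
  · subst hb
    rw [Function.update_self, Pi.single_eq_same, Nat.cast_sub (by omega)]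
    push_cast
    ring
  · rw [Function.update_of_ne hb, Pi.single_eq_of_ne hb]
    ring

/-- the left hand side -/
noncomputable def lhs (f : (Fin n → ℝ) → ℝ) (N : ℕ) (g : Fin n → ℕ) : ℝ :=
  ∑ a, (if g a + 1 < N then
      cb N * (f (lp N (Function.update g a (g a + 1))) - f (lp N g)) ^ 2 else 0) +
    ∑ a, (if 0 < g a then
      cb N * (f (lp N (Function.update g a (g a - 1))) - f (lp N g)) ^ 2 else 0)

theorem ev (hf : ContDiff ℝ 1 f) (ε : ℝ) (hε : 0 < ε) : ∃ N0 : ℕ, ∀ N : ℕ, N0 ≤ N → 0 < N →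
    ∀ g : Fin n → ℕ, (∀ a, g a < N) →
    lhs f N g ≤ 2 / Real.pi ^ 2 * ∑ a, pd f a (lp N g) ^ 2 + ε := by
  have hK : IsCompact (Icc (0 : Fin n → ℝ) 1) := isCompact_Icc
  set Q : (Fin n → ℝ) → (Fin n → ℝ) := fun x a => pd f a x ^ 2 with hQ
  have hQc : Continuous Q := continuous_pi fun a => (pd_cont hf a).pow 2
  obtain ⟨B, hB⟩ := hK.exists_bound_of_continuousOn hQc.continuousOn
  have hB' : ∀ x ∈ Icc (0 : Fin n → ℝ) 1, ∀ a, pd f a x ^ 2 ≤ |B| := by
    intro x hx a
    have h1 := (norm_le_pi_norm (Q x) a).trans (hB x hx)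
    rw [Real.norm_eq_abs, hQ] at h1
    exact (le_abs_self _).trans (h1.trans (le_abs_self _))
  have huc := hK.uniformContinuousOn_of_continuous hQc.continuousOn
  rw [Metric.uniformContinuousOn_iff] at huc
  have hn1 : (0 : ℝ) < (n : ℝ) + 1 := by positivity
  obtain ⟨δ, hδ, huc⟩ := huc (ε / ((n : ℝ) + 1)) (by positivity)
  have hlim1 : ∀ᶠ N : ℕ in atTop, |cb N / (N : ℝ) ^ 2 - 1 / Real.pi ^ 2| ≤
      ε / (4 * ((n : ℝ) * |B| + 1)) := by
    have h1 := Metric.tendsto_nhds.1 cb_lim (ε / (4 * ((n : ℝ) * |B| + 1))) (by positivity)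
    filter_upwards [h1] with N hN
    rw [Real.dist_eq] at hN
    exact hN.le
  have hlim2 : ∀ᶠ N : ℕ in atTop, 1 / (N : ℝ) < δ := by
    have h1 : Tendsto (fun N : ℕ => 1 / (N : ℝ)) atTop (𝓝 0) := tendsto_one_div_atTop_nhds_zero_nat
    exact h1.eventually_lt_const hδ
  obtain ⟨N0, hN0⟩ := eventually_atTop.1 (hlim1.and hlim2)
  refine ⟨N0, fun N hN hNp g hg => ?_⟩
  obtain ⟨hc, hd⟩ := hN0 N hN
  have hN' : (0 : ℝ) < N := by exact_mod_cast hNp
  have hx := lp_mem hNp fun a => (hg a).le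
  set c := cb N / (N : ℝ) ^ 2 with hcdef
  have hc0 : 0 ≤ c := div_nonneg (cb_nonneg N) (by positivity)
  have hc4 : c ≤ 1 / 4 := cb_le hNp
  have hcb : cb N = c * (N : ℝ) ^ 2 := by
    rw [hcdef]
    field_simp
  set η := ε / ((n : ℝ) + 1) with hη
  have hη0 : 0 < η := by positivity
  have hterm : ∀ (a : Fin n) (t : ℝ), |t| = 1 / (N : ℝ) →
      lp N g + t • Pi.single a (1 : ℝ) ∈ Icc (0 : Fin n → ℝ) 1 →
      cb N * (f (lp N g + t • Pi.single a (1 : ℝ)) - f (lp N g)) ^ 2 ≤
        c * (pd f a (lp N g) ^ 2 + η) := by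
    intro a t ht hmem
    obtain ⟨ξ, hξ, hdist, he⟩ := mvt hf a t hx hmem
    rw [he, mul_pow, ← sq_abs t, ht, hcb]
    have h1 := huc ξ hξ (lp N g) hx (by rw [ht] at hdist; exact lt_of_le_of_lt hdist hd)
    have h2 := lt_of_le_of_lt (dist_le_pi_dist (Q ξ) (Q (lp N g)) a) h1
    rw [Real.dist_eq, hQ] at h2
    have h3 := (abs_lt.1 h2).2
    simp only at h3
    have h4 : c * (N : ℝ) ^ 2 * ((1 / (N : ℝ)) ^ 2 * pd f a ξ ^ 2) = c * pd f a ξ ^ 2 := by
      field_simp
    rw [h4]
    exact mul_le_mul_of_nonneg_left (by linarith) hc0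
  have hnn : ∀ a : Fin n, 0 ≤ c * (pd f a (lp N g) ^ 2 + η) := fun a => by positivity
  have hS : lhs f N g ≤ ∑ a : Fin n, c * (pd f a (lp N g) ^ 2 + η) +
      ∑ a : Fin n, c * (pd f a (lp N g) ^ 2 + η) := by
    unfold lhs
    apply add_le_add
    · apply Finset.sum_le_sum
      intro a _
      split_ifs with h
      · rw [lp_up]
        apply hterm a
        · rw [abs_of_pos (by positivity)]
        · rw [← lp_up]
          apply lp_mem hNp
          intro b
          by_cases hb : b = a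
          · subst hb
            rw [Function.update_self]
            exact h.le
          · rw [Function.update_of_ne hb]
            exact (hg b).le
      · exact hnn a
    · apply Finset.sum_le_sum
      intro a _
      split_ifs with h
      · rw [lp_down g a h]
        apply hterm a
        · rw [abs_neg, abs_of_pos (by positivity)]
        · rw [← lp_down g a h]
          apply lp_mem hNp
          intro b
          by_cases hb : b = a
          · subst hb
            rw [Function.update_self]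
            have := hg b
            omega
          · rw [Function.update_of_ne hb]
            exact (hg b).le
      · exact hnn a
  refine hS.trans ?_
  rw [← Finset.mul_sum, Finset.sum_add_distrib, Finset.sum_const, Finset.card_univ,
    Fintype.card_fin, nsmul_eq_mul]
  set P := ∑ a : Fin n, pd f a (lp N g) ^ 2 with hP
  have hP0 : 0 ≤ P := Finset.sum_nonneg fun a _ => sq_nonneg _
  have hPB : P ≤ (n : ℝ) * |B| := by
    rw [hP]
    calc ∑ a : Fin n, pd f a (lp N g) ^ 2 ≤ ∑ _a : Fin n, |B| :=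
          Finset.sum_le_sum fun a _ => hB' _ hx a
      _ = (n : ℝ) * |B| := by simp
  have h1 : (n : ℝ) * η ≤ ε := by
    rw [hη, mul_div_assoc', div_le_iff₀ hn1]
    nlinarith
  have h2 : (c - 1 / Real.pi ^ 2) * P ≤ ε / 4 := by
    have h3 : (c - 1 / Real.pi ^ 2) * P ≤ ε / (4 * ((n : ℝ) * |B| + 1)) * ((n : ℝ) * |B| + 1) := by
      calc (c - 1 / Real.pi ^ 2) * P ≤ |c - 1 / Real.pi ^ 2| * P :=
            mul_le_mul_of_nonneg_right (le_abs_self _) hP0
        _ ≤ _ := mul_le_mul hc (by linarith) hP0 (by positivity)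
    have h4 : ε / (4 * ((n : ℝ) * |B| + 1)) * ((n : ℝ) * |B| + 1) = ε / 4 := by
      field_simp
    linarith
  have h5 : c * ((n : ℝ) * η) ≤ ε / 4 := by
    have : 0 ≤ (n : ℝ) * η := by positivity
    calc c * ((n : ℝ) * η) ≤ 1 / 4 * ε := mul_le_mul hc4 h1 this (by norm_num)
      _ = ε / 4 := by ring
  have h6 : 2 / Real.pi ^ 2 * P = 2 * (1 / Real.pi ^ 2 * P) := by ring
  rw [h6]
  have h7 : c * (P + (n : ℝ) * η) = 1 / Real.pi ^ 2 * P + (c - 1 / Real.pi ^ 2) * P +
    c * ((n : ℝ) * η) := by ring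
  rw [h7]
  linarith

open Classical in
theorem upb : S_UPB := by
  intro n f hf
  -- Lipschitz bound
  have hK : IsCompact (Icc (0 : Fin n → ℝ) 1) := isCompact_Icc
  obtain ⟨L, hL⟩ := hK.exists_bound_of_continuousOn (hf.continuous_fderiv one_ne_zero).continuousOn
  let S : ℕ → Finset (Fin n → ℕ) := fun N => Fintype.piFinset fun _ => Finset.range N
  let D : ℕ → (Fin n → ℕ) → ℝ := fun N g =>
    max 0 (lhs f N g - 2 / Real.pi ^ 2 * ∑ a, pd f a (lp N g) ^ 2)
  let err : ℕ → ℝ := fun N => if h : (S N).Nonempty ∧ 0 < N then (S N).sup' h.1 (D N) else 0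
  have hmem : ∀ (N : ℕ) (g : Fin n → ℕ), (∀ a, g a < N) → g ∈ S N := by
    intro N g hg
    simp only [S, Fintype.mem_piFinset, Finset.mem_range]
    exact hg
  refine ⟨err, L ^ 2 / 4, ?_, by positivity, fun N g hN hg hinj => ⟨?_, ?_⟩⟩
  · rw [Metric.tendsto_atTop]
    intro ε hε
    obtain ⟨N0, hN0⟩ := ev hf (ε / 2) (by positivity)
    refine ⟨N0, fun N hN => ?_⟩
    rw [Real.dist_eq, sub_zero]
    by_cases h : (S N).Nonempty ∧ 0 < N
    · simp only [err, dif_pos h]
      have h1 : (S N).sup' h.1 (D N) ≤ ε / 2 := by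
        apply Finset.sup'_le
        intro g hg
        simp only [S, Fintype.mem_piFinset, Finset.mem_range] at hg
        have := hN0 N hN h.2 g hg
        exact max_le (by positivity) (by linarith)
      have h2 : 0 ≤ (S N).sup' h.1 (D N) := by
        obtain ⟨g, hg⟩ := h.1
        exact (le_max_left _ _).trans (Finset.le_sup' (D N) hg)
      rw [abs_of_nonneg h2]
      linarith
    · simp only [err, dif_neg h, abs_zero]
      exact hε
  · have h1 : (S N).Nonempty ∧ 0 < N := ⟨⟨g, hmem N g hg⟩, hN⟩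
    have h2 : D N g ≤ err N := by
      simp only [err, dif_pos h1]
      exact Finset.le_sup' (D N) (hmem N g hg)
    have h3 : lhs f N g - 2 / Real.pi ^ 2 * ∑ a, pd f a (lp N g) ^ 2 ≤ D N g := le_max_right _ _
    have h4 : lhs f N g ≤ 2 / Real.pi ^ 2 * ∑ a, pd f a (lp N g) ^ 2 + err N := by linarith
    exact h4
  · intro a b hab
    have hN' : (0 : ℝ) < N := by exact_mod_cast hN
    have hmv : ∀ e, mv (g a) (g a + 1) g e < N := by
      intro e
      have h1 := hg a
      have h2 := hg b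
      have h3 := hg e
      unfold mv
      rw [Equiv.swap_apply_def]
      split_ifs <;> omega
    have hx := lp_mem hN fun a => (hg a).le
    have hx' := lp_mem hN fun e => (hmv e).le
    have h1 := (convex_Icc (0 : Fin n → ℝ) 1).norm_image_sub_le_of_norm_fderiv_le
      (𝕜 := ℝ) (f := f) (C := L) (fun x _ => (hf.differentiable one_ne_zero x))
      (fun x hx => hL x hx) hx hx'
    have hL0 : 0 ≤ L := (norm_nonneg _).trans (hL _ hx)
    have h2 : ‖lp N (mv (g a) (g a + 1) g) - lp N g‖ ≤ 1 / (N : ℝ) := by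
      rw [pi_norm_le_iff_of_nonneg (by positivity)]
      intro e
      rw [Pi.sub_apply, Real.norm_eq_abs]
      unfold Pool.Agent.R972.OP.lp mv
      rw [Equiv.swap_apply_def, ← sub_div, abs_div, abs_of_pos hN']
      apply div_le_div_of_nonneg_right _ hN'.le
      split_ifs with h3 h4
      · rw [h3]
        push_cast
        simp
      · rw [h4]
        push_cast
        simp
      · simp
    have h3 : ‖f (lp N (mv (g a) (g a + 1) g)) - f (lp N g)‖ ≤ L * (1 / (N : ℝ)) :=
      h1.trans (mul_le_mul_of_nonneg_left h2 hL0)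
    rw [Real.norm_eq_abs] at h3
    have h4 : (f (lp N (mv (g a) (g a + 1) g)) - f (lp N g)) ^ 2 ≤ (L * (1 / (N : ℝ))) ^ 2 := by
      rw [← sq_abs]
      exact pow_le_pow_left₀ (abs_nonneg _) h3 2
    have h5 : cb N * (L * (1 / (N : ℝ))) ^ 2 = cb N / (N : ℝ) ^ 2 * L ^ 2 := by
      field_simp
    calc cb N * (f (lp N (mv (g a) (g a + 1) g)) - f (lp N g)) ^ 2
        ≤ cb N * (L * (1 / (N : ℝ))) ^ 2 := mul_le_mul_of_nonneg_left h4 (cb_nonneg N)
      _ = cb N / (N : ℝ) ^ 2 * L ^ 2 := h5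
      _ ≤ 1 / 4 * L ^ 2 := mul_le_mul_of_nonneg_right (cb_le hN) (sq_nonneg _)
      _ = L ^ 2 / 4 := by ring

end Pool.Agent.R874.OP
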